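import Pool.Agent.Lib.MP_d91fe8_nt.Twelve

/-!
# MP_d91fe8_nt: only multiples of twelve with many prime factors matter

Let `P` be a finite set of primes, `w ≥ 1`, and let `W` contain every element `a` of the finite set
`V` of positive integers that is divisible by twelve, has more than `w` distinct prime factors and
for which `a ^ 2 + 1` is a square modulo every `p ∈ P`. If `D(W)` is `k`-colourable, then `D(V)` is
`(k + c(w) + ∑ p ∈ P, (p + 1) / 2)`-colourable, with `c(w) = w + 3` for `w ≤ 2` and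
`c(w) = 2 ^ (w - 1) + 4` for `w ≥ 3` (question Q2).
-/

namespace Pool.Agent.Results.MP_d91fe8_nt.ManyPrimes

open Pool.Agent.Lib.MP_d91fe8_nt.Twelve

/-- **The reduction to multiples of twelve with many prime factors.** -/
theorem result (V W P : Finset ℕ) (w k : ℕ) (hV : ∀ a ∈ V, 0 < a) (hP : ∀ p ∈ P, p.Prime)
    (hw : 1 ≤ w)
    (hW : ∀ a ∈ V, 12 ∣ a → w < a.primeFactors.card →
      (∀ p ∈ P, IsSquare ((a : ZMod p) ^ 2 + 1)) → a ∈ W)
    (hk : (dGraph W).Colorable k) :
    (dGraph V).Colorable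
      (k + (if w ≤ 2 then w + 3 else 2 ^ (w - 1) + 4) + ∑ p ∈ P, (p + 1) / 2) :=
  general V W P w k hV hP hw hW hk

end Pool.Agent.Results.MP_d91fe8_nt.ManyPrimes
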