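import Pool.Agent.Lib.MP_d91fe8_nt.ShortR
import Pool.Agent.Lib.MP_d91fe8_nt.Twelve

/-!
# MP_d91fe8_nt: odd cycles of non-5-colourable Diophantine graphs

If `D(V)` is not 5-colourable, then it has an odd closed walk through numbers congruent to `0` or `3`
modulo 12, and every such walk has an edge that is not short and an edge between two multiples of
twelve that are congruent modulo 24, one of them with at least three distinct prime factors
(question Q1).
-/

namespace Pool.Agent.Results.MP_d91fe8_nt.OddCycles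

open Pool.Agent.Lib.MP_d91fe8_nt.Short Pool.Agent.Lib.MP_d91fe8_nt.ShortR

/-- The graph on a finite set `V` of natural numbers in which `a ≠ b` are adjacent if and only if
`a b + 1` is a perfect square. -/
def dGraph (V : Finset ℕ) : SimpleGraph V where
  Adj a b := a ≠ b ∧ IsSquare ((a : ℕ) * (b : ℕ) + 1)
  symm := ⟨fun a b h => ⟨h.1.symm, by rw [mul_comm]; exact h.2⟩⟩
  loopless := ⟨fun a h => h.1 rfl⟩

/-- `c 0, c 1, ..., c n = c 0` is a closed walk of odd length `n` in `D(V)`, through numbers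
congruent to `0` or `3` modulo 12. -/
def OddWalk (V : Finset ℕ) (n : ℕ) (c : ℕ → ℕ) : Prop :=
  Odd n ∧ c n = c 0 ∧ ∀ i < n, c i ∈ V ∧ (c i % 12 = 0 ∨ c i % 12 = 3) ∧ c i ≠ c (i + 1) ∧
    IsSquare (c i * c (i + 1) + 1)

theorem parity {n : ℕ} {c : ℕ → ℕ} (f : ℕ → Fin 2) (hn : Odd n) (hc : c n = c 0)
    (h : ∀ i < n, f (c i) ≠ f (c (i + 1))) : False := by
  have h1 : ∀ i ≤ n, ((f (c i)).val + i) % 2 = (f (c 0)).val % 2 := by
    intro i
    induction i with
    | zero => intro _; simp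
    | succ i ih =>
      intro hi
      have h2 := ih (by omega)
      have h3 := h i (by omega)
      have h4 : (f (c i)).val ≠ (f (c (i + 1))).val := fun he => h3 (Fin.ext he)
      have h5 := (f (c i)).isLt
      have h6 := (f (c (i + 1))).isLt
      omega
  have h2 := h1 n le_rfl
  rw [hc] at h2
  obtain ⟨k, hk⟩ := hn
  omega

/-- five colours, when the numbers congruent to `0` or `3` modulo 12 are 2-colourable -/
theorem five_of_two (V : Finset ℕ)
    (hcl : Good 2 (V.filter fun a => a % 12 = 0 ∨ a % 12 = 3)) : Good 5 V := by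
  classical
  obtain ⟨f, hf⟩ := hcl
  let c : ℕ → ℕ := fun a =>
    if a % 3 = 1 then 0 else if a % 3 = 2 then 1 else if a % 4 = 1 ∨ a % 4 = 2 then 2
    else 3 + (f a).val
  have hcv : ∀ a, (c a = 0 ∧ a % 3 = 1) ∨ (c a = 1 ∧ a % 3 = 2) ∨
      (c a = 2 ∧ (a % 4 = 1 ∨ a % 4 = 2)) ∨
      (c a = 3 + (f a).val ∧ (a % 12 = 0 ∨ a % 12 = 3)) := by
    intro a
    simp only [c]
    split_ifs <;> omega
  have hlt : ∀ a, c a < 5 := by
    intro a
    have h1 := (f a).isLt
    rcases hcv a with ⟨h3, -⟩ | ⟨h3, -⟩ | ⟨h3, -⟩ | ⟨h3, -⟩ <;> omega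
  refine ⟨fun a => ⟨c a, hlt a⟩, fun a ha b hb hab hsq he => ?_⟩
  have he' : c a = c b := Fin.mk.inj_iff.1 he
  rcases hcv a with ⟨a1, a2⟩ | ⟨a1, a2⟩ | ⟨a1, a2⟩ | ⟨a1, a2⟩ <;>
    rcases hcv b with ⟨b1, b2⟩ | ⟨b1, b2⟩ | ⟨b1, b2⟩ | ⟨b1, b2⟩ <;>
    rw [a1, b1] at he'
  · exact not_sq_three (by simp [Nat.add_mod, Nat.mul_mod, a2, b2]) hsq
  · omega
  · omega
  · omega
  · omega
  · exact not_sq_three (by simp [Nat.add_mod, Nat.mul_mod, a2, b2]) hsq
  · omega
  · omega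
  · omega
  · omega
  · exact Pool.Agent.Lib.MP_d91fe8_nt.Windows.not_adj_one_two a2 b2 hsq
  · omega
  · omega
  · omega
  · omega
  · exact hf a (Finset.mem_filter.2 ⟨ha, a2⟩) b (Finset.mem_filter.2 ⟨hb, b2⟩) hab hsq
      (Fin.ext (by omega))

/-- **Odd cycles of non-5-colourable Diophantine graphs.** -/
theorem result (V : Finset ℕ) (hV : ∀ a ∈ V, 0 < a) (hnot : ¬ (dGraph V).Colorable 5) :
    (∃ n c, OddWalk V n c) ∧ ∀ n c, OddWalk V n c →
      (∃ i < n, ∀ K : ℕ, 2 ^ (2 ^ (20 * K ^ 10)) ≤ c i → 2 ^ (2 ^ (20 * K ^ 10)) ≤ c (i + 1) →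
        (K : ℝ) < |√(c (i + 1) : ℝ) - √(c i : ℝ)| + 1) ∧
      ∃ i < n, 12 ∣ c i ∧ c i % 24 = c (i + 1) % 24 ∧
        (3 ≤ (c i).primeFactors.card ∨ 3 ≤ (c (i + 1)).primeFactors.card) := by
  classical
  obtain ⟨W, hW⟩ : ∃ W, W = V.filter fun a => a % 12 = 0 ∨ a % 12 = 3 := ⟨_, rfl⟩
  have hWm : ∀ {a}, a ∈ W ↔ a ∈ V ∧ (a % 12 = 0 ∨ a % 12 = 3) := by
    intro a
    rw [hW, Finset.mem_filter]
  refine ⟨?_, ?_⟩
  · by_contra hno
    apply hnot
    refine Good.colorable (five_of_two V ?_)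
    rw [← hW]
    refine good_of_colorable (by norm_num)
      (SimpleGraph.two_colorable_iff_forall_loop_even.2 fun u w => ?_)
    by_contra hodd
    rw [Nat.not_even_iff_odd] at hodd
    refine hno ⟨w.length, fun i => (w.getVert i : ℕ), hodd, ?_, fun i hi => ?_⟩
    · show ((w.getVert w.length : W) : ℕ) = ((w.getVert 0 : W) : ℕ)
      rw [SimpleGraph.Walk.getVert_length, SimpleGraph.Walk.getVert_zero]
    · have h1 := hWm.1 (w.getVert i).2
      have h2 := w.adj_getVert_succ hi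
      exact ⟨h1.1, h1.2, fun he => h2.1 (Subtype.ext he), h2.2⟩
  · rintro n c ⟨hn, hc, h⟩
    have hmem : ∀ i ≤ n, c i ∈ W := by
      intro i hi
      rcases Nat.lt_or_ge i n with h1 | h1
      · exact hWm.2 ⟨(h i h1).1, (h i h1).2.1⟩
      · have h2 : i = n := le_antisymm hi h1
        have h3 : 0 < n := hn.pos
        rw [h2, hc]
        exact hWm.2 ⟨(h 0 h3).1, (h 0 h3).2.1⟩
    refine ⟨?_, ?_⟩
    · by_contra hcon
      push Not at hcon
      let R : ℕ → ℕ → Prop := fun a b => IsSquare (a * b + 1) ∧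
        ∃ K : ℕ, 2 ^ (2 ^ (20 * K ^ 10)) ≤ a ∧ 2 ^ (2 ^ (20 * K ^ 10)) ≤ b ∧
          |√(b : ℝ) - √(a : ℝ)| + 1 ≤ K
      have hsym : ∀ a b, R a b → R b a := by
        rintro a b ⟨h1, K, h2, h3, h4⟩
        exact ⟨by rw [mul_comm]; exact h1, K, h3, h2, by rw [abs_sub_comm]; exact h4⟩
      obtain ⟨f, hf⟩ := class_goodR R hsym (fun a b h => h.1) thin_twelve W
        (fun a ha => (hWm.1 ha).2) (fun a _ b _ _ h => by
          obtain ⟨-, K, h2, -, h4⟩ := h
          exact ⟨K, h2, (add_le_add (le_abs_self _) le_rfl).trans h4⟩)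
      refine parity f hn hc fun i hi => ?_
      obtain ⟨K, h1, h2, h3⟩ := hcon i hi
      exact hf _ (hmem i hi.le) _ (hmem (i + 1) hi) (h i hi).2.2.1 ⟨(h i hi).2.2.2, K, h1, h2, h3⟩
    · by_contra hcon
      push Not at hcon
      have hg : ∀ a ∈ W, Pool.Agent.Lib.MP_d91fe8_nt.Twelve.gcol a = 3 ∨ Pool.Agent.Lib.MP_d91fe8_nt.Twelve.gcol a = 4 := by
        intro a ha
        have h1 := (hWm.1 ha).2
        have h2 := Pool.Agent.Lib.MP_d91fe8_nt.Twelve.gcol_cases a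
        omega
      refine parity (fun a => if Pool.Agent.Lib.MP_d91fe8_nt.Twelve.gcol a = 3 then 0 else 1) hn hc fun i hi => ?_
      have h1 := hmem i hi.le
      have h2 := hmem (i + 1) hi
      have g1 := (hWm.1 h1).2
      have g2 := (hWm.1 h2).2
      have hne : Pool.Agent.Lib.MP_d91fe8_nt.Twelve.gcol (c i) ≠ Pool.Agent.Lib.MP_d91fe8_nt.Twelve.gcol (c (i + 1)) := by
        refine Pool.Agent.Lib.MP_d91fe8_nt.Twelve.gcol_ne (by omega) (by omega) (fun h12 h24 => ?_) (h i hi).2.2.2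
        obtain ⟨h3, h4⟩ := hcon i hi h12 h24
        exact Pool.Agent.Lib.MP_d91fe8_nt.Twelve.two_primes (hV _ (hWm.1 h1).1) (hV _ (hWm.1 h2).1) h12 h24 (by omega)
          (by omega) (h i hi).2.2.2
      have k1 := hg _ h1
      have k2 := hg _ h2
      show (if Pool.Agent.Lib.MP_d91fe8_nt.Twelve.gcol (c i) = 3 then (0 : Fin 2) else 1) ≠
        (if Pool.Agent.Lib.MP_d91fe8_nt.Twelve.gcol (c (i + 1)) = 3 then (0 : Fin 2) else 1)
      rcases k1 with k1 | k1 <;> rcases k2 with k2 | k2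
      · exact (hne (k1.trans k2.symm)).elim
      · rw [k1, k2]
        simp
      · rw [k1, k2]
        simp
      · exact (hne (k1.trans k2.symm)).elim

end Pool.Agent.Results.MP_d91fe8_nt.OddCycles
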