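import Pool.Agent.Lib.MP_d91fe8_nt.ShortR

/-!
# MP_d91fe8_nt: short and long edges of Diophantine graphs

`D(V)` is the graph on a finite set `V` of natural numbers in which `a ≠ b` are adjacent if and
only if `a b + 1` is a perfect square. An edge is short if `|√b - √a| + 1 ≤ K` for some natural number
`K` with `2 ^ (2 ^ (20 K ^ 10)) ≤ a, b`, and long otherwise. If the graph of the long edges of `V` is
`k`-colourable, then `D(V)` is `3 k`-colourable. In particular `D(V)` is 3-colourable if it has no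
long edge; then two colours do not suffice, however large the elements of `V` are.
-/

namespace Pool.Agent.Results.MP_d91fe8_nt.ShortEdges

open Pool.Agent.Lib.MP_d91fe8_nt.Short Pool.Agent.Lib.MP_d91fe8_nt.ShortR

/-- The graph on a finite set `V` of natural numbers in which `a ≠ b` are adjacent if and only if
`a b + 1` is a perfect square. -/
def dGraph (V : Finset ℕ) : SimpleGraph V where
  Adj a b := a ≠ b ∧ IsSquare ((a : ℕ) * (b : ℕ) + 1)
  symm := ⟨fun a b h => ⟨h.1.symm, by rw [mul_comm]; exact h.2⟩⟩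
  loopless := ⟨fun a h => h.1 rfl⟩

/-- The graph of the long edges: `a ≠ b` are adjacent if and only if `a b + 1` is a perfect square
and `|√b - √a| + 1 > K` for all natural numbers `K` with `2 ^ (2 ^ (20 K ^ 10)) ≤ a, b`. -/
def longGraph (V : Finset ℕ) : SimpleGraph V where
  Adj a b := a ≠ b ∧ IsSquare ((a : ℕ) * (b : ℕ) + 1) ∧
    ∀ K : ℕ, 2 ^ (2 ^ (20 * K ^ 10)) ≤ (a : ℕ) → 2 ^ (2 ^ (20 * K ^ 10)) ≤ (b : ℕ) →
      (K : ℝ) < |√((b : ℕ) : ℝ) - √((a : ℕ) : ℝ)| + 1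
  symm := ⟨fun a b h => ⟨h.1.symm, by rw [mul_comm]; exact h.2.1,
    fun K h1 h2 => by rw [abs_sub_comm]; exact h.2.2 K h2 h1⟩⟩
  loopless := ⟨fun a h => h.1 rfl⟩

/-- sets with short edges are 3-colourable -/
theorem all_goodR (R : ℕ → ℕ → Prop) (hsym : ∀ a b, R a b → R b a)
    (hR : ∀ a b, R a b → IsSquare (a * b + 1)) (V : Finset ℕ)
    (hV : ∀ a ∈ V, ∀ b ∈ V, a < b → R a b →
      ∃ K : ℕ, 2 ^ (2 ^ (20 * K ^ 10)) ≤ a ∧ √(b : ℝ) - √(a : ℝ) + 1 ≤ K) : GoodR R 3 V := by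
  classical
  obtain ⟨g, hmono, hg1, hg2, hg3, hg4⟩ := gfun
  have hedge : ∀ a ∈ V, ∀ b ∈ V, a < b → R a b →
      √(b : ℝ) - √(a : ℝ) + 1 ≤ g a := by
    intro a ha b hb hab hsq
    obtain ⟨K, h1, h2⟩ := hV a ha b hb hab hsq
    have h3 : (K : ℝ) ≤ g a := by exact_mod_cast hg1 a K h1
    exact h2.trans h3
  have hab := both_endsR R hsym g hmono hg2 V hedge
  -- the marked and the bad elements
  obtain ⟨M, hM⟩ : ∃ M, M = V.filter fun v => Marked ((g (v + 2) - 1) ^ 2) v := ⟨_, rfl⟩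
  obtain ⟨B, hB⟩ : ∃ B, B = M.filter fun v => Bad ((g (v + 4) - 1) ^ 2) v := ⟨_, rfl⟩
  have hMV : ∀ {a}, a ∈ M ↔ a ∈ V ∧ Marked ((g (a + 2) - 1) ^ 2) a := by
    intro a
    rw [hM, Finset.mem_filter]
  have hBM : ∀ {a}, a ∈ B ↔ a ∈ M ∧ Bad ((g (a + 4) - 1) ^ 2) a := by
    intro a
    rw [hB, Finset.mem_filter]
  have h24 : ∀ {a b : ℕ}, a ≤ b → (g a - 1) ^ 2 ≤ (g b - 1) ^ 2 := by
    intro a b h
    have := hmono h
    exact Nat.pow_le_pow_left (by omega) 2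
  have hgood : GoodR R 3 B := bad_goodR R hsym g hmono hg2 hg4 3 (by norm_num) B
    (fun a ha => ⟨bad_far g hg3 (hBM.1 ha).2, (hBM.1 ha).2⟩)
    (fun a ha b hb => hedge a (hMV.1 (hBM.1 ha).1).1 b (hMV.1 (hBM.1 hb).1).1)
    (fun k hk A _ h1 h2 => toR (window_good k hk A h1 h2) R hR)
  have hgoodM : GoodR R 3 M := by
    have h1 : M = B ∪ (M \ B) := by
      rw [Finset.union_sdiff_of_subset]
      intro a ha
      exact (hBM.1 ha).1
    rw [h1]
    refine extR R hsym 3 B (M \ B) hgood fun x hx N hN => Nat.lt_succ_of_le ?_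
    rw [← h1] at hN
    obtain ⟨hxM, hxB⟩ := Finset.mem_sdiff.1 hx
    have hxV := (hMV.1 hxM).1
    rcases N.eq_empty_or_nonempty with he | ⟨y₀, hy₀⟩
    · rw [he]
      simp
    have hx0 : 0 < x :=
      (hab x hxV y₀ (hMV.1 (hN y₀ hy₀).1).1 (hN y₀ hy₀).2.1 (hN y₀ hy₀).2.2).1
    refine deg_marked (K := g (x + 2) - 1) (L := (g (x + 4) - 1) ^ 2) (h24 (by omega)) hx0
      ((hMV.1 hxM).2.mono (h24 (by omega))) (fun hb => hxB (hBM.2 ⟨hxM, hb⟩)) N
      (fun y hy => ?_) (fun y hy hyx => (hMV.1 (hN y hy).1).2.mono (h24 (by omega)))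
    obtain ⟨h3, h4, h5⟩ := hN y hy
    obtain ⟨-, h6, h7, h8⟩ := hab x hxV y (hMV.1 h3).1 h4 h5
    exact ⟨h6, h4, hR _ _ h5, h7, h8⟩
  have h1 : V = M ∪ (V \ M) := by
    rw [Finset.union_sdiff_of_subset]
    intro a ha
    exact (hMV.1 ha).1
  rw [h1]
  refine extR R hsym 3 M (V \ M) hgoodM fun x hx N hN => Nat.lt_succ_of_le ?_
  rw [← h1] at hN
  obtain ⟨hxV, hxM⟩ := Finset.mem_sdiff.1 hx
  rcases N.eq_empty_or_nonempty with he | ⟨y₀, hy₀⟩
  · rw [he]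
    simp
  have hx0 : 0 < x := (hab x hxV y₀ (hN y₀ hy₀).1 (hN y₀ hy₀).2.1 (hN y₀ hy₀).2.2).1
  refine deg_unmarked (K := g (x + 2) - 1) (L := (g (x + 2) - 1) ^ 2) le_rfl hx0
    (fun hm => hxM (hMV.2 ⟨hxV, hm⟩)) N (fun y hy => ?_)
  obtain ⟨h3, h4, h5⟩ := hN y hy
  obtain ⟨-, h6, h7, h8⟩ := hab x hxV y h3 h4 h5
  exact ⟨h6, h4, hR _ _ h5, h7, h8⟩

/-- **The chromatic number of a Diophantine graph is at most three times that of its long edges**,
and this is best possible when there are no long edges. -/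
theorem result :
    (∀ (V : Finset ℕ) (k : ℕ), (longGraph V).Colorable k → (dGraph V).Colorable (3 * k)) ∧
    ∀ N : ℕ, ∃ V : Finset ℕ, (∀ a ∈ V, N ≤ a) ∧ (∀ a ∈ V, ∀ b ∈ V, √(b : ℝ) - √(a : ℝ) ≤ 2) ∧
      (longGraph V).Colorable 1 ∧ ¬ (dGraph V).Colorable 2 := by
  classical
  refine ⟨fun V k hk => ?_, fun N => ?_⟩
  · let R : ℕ → ℕ → Prop := fun a b => IsSquare (a * b + 1) ∧
      ∃ K : ℕ, 2 ^ (2 ^ (20 * K ^ 10)) ≤ a ∧ 2 ^ (2 ^ (20 * K ^ 10)) ≤ b ∧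
        |√(b : ℝ) - √(a : ℝ)| + 1 ≤ K
    have hsym : ∀ a b, R a b → R b a := by
      rintro a b ⟨h1, K, h2, h3, h4⟩
      exact ⟨by rw [mul_comm]; exact h1, K, h3, h2, by rw [abs_sub_comm]; exact h4⟩
    obtain ⟨f, hf⟩ := all_goodR R hsym (fun a b h => h.1) V (fun a _ b _ _ h => by
      obtain ⟨-, K, h2, -, h4⟩ := h
      exact ⟨K, h2, (add_le_add (le_abs_self _) le_rfl).trans h4⟩)
    obtain ⟨C⟩ := hk
    let F : (dGraph V).Coloring (Fin 3 × Fin k) :=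
      SimpleGraph.Coloring.mk (fun a : V => (f a, C a)) (by
        intro a b hab he
        have e1 : f a = f b := congrArg Prod.fst he
        have e2 : C a = C b := congrArg Prod.snd he
        by_cases hl : (longGraph V).Adj a b
        · exact C.valid hl e2
        · have h1 : ∃ K : ℕ, 2 ^ (2 ^ (20 * K ^ 10)) ≤ (a : ℕ) ∧
              2 ^ (2 ^ (20 * K ^ 10)) ≤ (b : ℕ) ∧
              |√((b : ℕ) : ℝ) - √((a : ℕ) : ℝ)| + 1 ≤ K := by
            by_contra hcon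
            push Not at hcon
            exact hl ⟨hab.1, hab.2, hcon⟩
          exact hf a a.2 b b.2 (fun h => hab.1 (Subtype.ext h)) ⟨hab.2, h1⟩ e1)
    have hcol := F.colorable
    rwa [Fintype.card_prod, Fintype.card_fin, Fintype.card_fin] at hcol
  · obtain ⟨K, hK⟩ : ∃ K : ℕ, K = 3 := ⟨_, rfl⟩
    obtain ⟨T, hT⟩ : ∃ T : ℕ, T = 2 ^ (2 ^ (20 * K ^ 10)) := ⟨_, rfl⟩
    obtain ⟨V, h1, h2, h3⟩ := Pool.Agent.Lib.MP_d91fe8_nt.Windows.sharp (N + T)
    refine ⟨V, fun a ha => by have := h1 a ha; omega, h2, ?_, h3⟩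
    refine ⟨SimpleGraph.Coloring.mk (fun _ => 0) fun {a b} hab _ => ?_⟩
    have k1 := h2 a a.2 b b.2
    have k2 := h2 b b.2 a a.2
    have k3 : |√((b : ℕ) : ℝ) - √((a : ℕ) : ℝ)| ≤ 2 := abs_le.2 ⟨by linarith, k1⟩
    have k4 := hab.2.2 K (by rw [← hT]; have := h1 a a.2; omega)
      (by rw [← hT]; have := h1 b b.2; omega)
    rw [hK] at k4
    push_cast at k4
    linarith

end Pool.Agent.Results.MP_d91fe8_nt.ShortEdges
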