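import Pool.Agent.Lib.MP_d91fe8_nt.Mean

/-!
# MP_d91fe8_nt: the graphs `a b + q ^ 2 = square`

For every `k` there is `q₀` such that for every positive multiple `q` of `q₀` there is a finite set
`V` of positive integers such that, in the graph of the pairs `a ≠ b` with `a b + q ^ 2` a perfect
square, every independent set has fewer than `|V| / k` elements; in particular this graph is not
`k`-colourable. For `q = 1` these are the Diophantine graphs.
-/

namespace Pool.Agent.Results.MP_d91fe8_nt.SquareShift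

open Pool.Agent.Lib.MP_d91fe8_nt

/-- The graph on a finite set `V` of natural numbers in which `a ≠ b` are adjacent if and only if
`a b + q ^ 2` is a perfect square. For `q = 1` it is the Diophantine graph `D(V)`. -/
def shiftGraph (q : ℕ) (V : Finset ℕ) : SimpleGraph V where
  Adj a b := a ≠ b ∧ IsSquare ((a : ℕ) * (b : ℕ) + q ^ 2)
  symm := ⟨fun a b h => ⟨h.1.symm, by rw [mul_comm]; exact h.2⟩⟩
  loopless := ⟨fun a h => h.1 rfl⟩

/-- From small independent sets to the chromatic number. -/
theorem not_colorable {k : ℕ} {q : ℕ} {V : Finset ℕ} (hV : V.Nonempty)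
    (h : ∀ A : Finset V, (shiftGraph q V).IsIndepSet A → k * A.card < V.card) :
    ¬ (shiftGraph q V).Colorable k := by
  classical
  rintro ⟨C⟩
  have hk : 0 < k := by
    obtain ⟨a, ha⟩ := hV
    exact (C ⟨a, ha⟩).pos
  have h1 : ∀ c : Fin k, k * (Finset.univ.filter fun v : V => C v = c).card < V.card := by
    intro c
    refine h _ ?_
    intro a ha b hb _ hab
    have ha' := (Finset.mem_filter.1 (Finset.mem_coe.1 ha)).2
    have hb' := (Finset.mem_filter.1 (Finset.mem_coe.1 hb)).2
    exact C.valid hab (ha'.trans hb'.symm)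
  have h2 : ∑ c : Fin k, (Finset.univ.filter fun v : V => C v = c).card = V.card := by
    rw [← Finset.card_eq_sum_card_fiberwise (fun v _ => Finset.mem_univ (C v)), Finset.card_univ, Fintype.card_coe]
  have h3 : ∑ c : Fin k, k * (Finset.univ.filter fun v : V => C v = c).card < ∑ _c : Fin k, V.card :=
    Finset.sum_lt_sum_of_nonempty ⟨⟨0, hk⟩, Finset.mem_univ _⟩ fun c _ => h1 c
  rw [← Finset.mul_sum, h2, Finset.sum_const, Finset.card_univ, Fintype.card_fin, smul_eq_mul] at h3
  exact lt_irrefl _ h3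

theorem result : ∀ k : ℕ, ∃ q₀ : ℕ, 0 < q₀ ∧ ∀ q : ℕ, 0 < q → q₀ ∣ q →
    ∃ V : Finset ℕ, V.Nonempty ∧ (∀ a ∈ V, 0 < a) ∧
      (∀ A : Finset V, (shiftGraph q V).IsIndepSet A → k * A.card < V.card) ∧
      ¬ (shiftGraph q V).Colorable k := by
  classical
  intro k
  obtain ⟨W, hWne, hWpos, hW⟩ := density (δ := 1 / ((k : ℝ) + 1)) (by positivity)
  refine ⟨∏ w ∈ W, w.den, Finset.prod_pos fun w _ => w.den_pos, fun q hq hqd => ?_⟩
  have hq0 : (0 : ℚ) < q := by exact_mod_cast hq
  let φ : ℚ → ℕ := fun x => ((q : ℚ) * x).num.toNat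
  -- the multiples by `q` are positive integers
  have hφ : ∀ w ∈ W, (φ w : ℚ) = q * w := by
    intro w hw
    obtain ⟨t, ht⟩ := (Finset.dvd_prod_of_mem (fun w : ℚ => w.den) hw).trans hqd
    have h1 : (q : ℚ) * w = ((w.num * t : ℤ) : ℚ) := by
      have h2 : (q : ℚ) = (w.den : ℚ) * t := by exact_mod_cast ht
      have h3 : w * (w.den : ℚ) = w.num := Rat.mul_den_eq_num _
      rw [h2]
      push_cast
      rw [← h3]
      ring
    have h4 : 0 < (q : ℚ) * w := mul_pos hq0 (hWpos w hw)
    have h5 : ((q : ℚ) * w).num = w.num * t := by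
      rw [h1, Rat.num_intCast]
    show ((((q : ℚ) * w).num.toNat : ℕ) : ℚ) = q * w
    have h6 : ((((q : ℚ) * w).num.toNat : ℕ) : ℤ) = ((q : ℚ) * w).num :=
      Int.toNat_of_nonneg (Rat.num_pos.2 h4).le
    have h7 : ((((q : ℚ) * w).num.toNat : ℕ) : ℚ) = ((((q : ℚ) * w).num : ℤ) : ℚ) := by
      exact_mod_cast congrArg (fun z : ℤ => (z : ℚ)) h6
    rw [h7, h5, h1]
  have hinj : Set.InjOn φ W := by
    intro x hx y hy he
    have h1 := hφ x hx
    have h2 := hφ y hy
    rw [he, h2] at h1
    exact (mul_left_cancel₀ hq0.ne' h1).symm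
  have hne : (W.image φ).Nonempty := hWne.image φ
  have hind : ∀ A : Finset (W.image φ : Finset ℕ), (shiftGraph q (W.image φ)).IsIndepSet A →
      k * A.card < (W.image φ).card := by
    intro A hA
    let B : Finset ℚ := W.filter fun x => ∃ h : φ x ∈ W.image φ, (⟨φ x, h⟩ : (W.image φ : Finset ℕ)) ∈ A
    have h1 : (B.card : ℝ) < 1 / ((k : ℝ) + 1) * W.card := by
      refine hW B (Finset.filter_subset _ _) ?_
      rintro a ha b hb hab ⟨r, hr⟩
      obtain ⟨haW, ha', haA⟩ := Finset.mem_filter.1 ha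
      obtain ⟨hbW, hb', hbA⟩ := Finset.mem_filter.1 hb
      have hne' : φ a ≠ φ b := fun he => hab (hinj haW hbW he)
      refine hA haA hbA (fun he => hne' (congrArg Subtype.val he)) ⟨fun he => hne' (congrArg Subtype.val he), ?_⟩
      show IsSquare (φ a * φ b + q ^ 2)
      rw [← Rat.isSquare_natCast_iff]
      refine ⟨(q : ℚ) * r, ?_⟩
      push_cast
      rw [hφ a haW, hφ b hbW]
      have h2 : (q : ℚ) * a * (q * b) + (q : ℚ) ^ 2 = (q : ℚ) ^ 2 * (a * b + 1) := by ring
      rw [h2, hr]
      ring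
    have h2 : A.card ≤ B.card := by
      have h3 : A.image Subtype.val ⊆ B.image φ := by
        intro y hy
        obtain ⟨a, ha, rfl⟩ := Finset.mem_image.1 hy
        obtain ⟨x, hx, hxa⟩ := Finset.mem_image.1 a.2
        refine Finset.mem_image.2 ⟨x, Finset.mem_filter.2 ⟨hx, Finset.mem_image_of_mem φ hx, ?_⟩, hxa⟩
        have h4 : (⟨φ x, Finset.mem_image_of_mem φ hx⟩ : (W.image φ : Finset ℕ)) = a := Subtype.ext hxa
        rw [h4]
        exact ha
      have h5 := (Finset.card_le_card h3).trans Finset.card_image_le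
      rwa [Finset.card_image_of_injective _ Subtype.val_injective] at h5
    rw [Finset.card_image_of_injOn hinj]
    have h3 : ((k : ℝ) + 1) * B.card < W.card := by
      have h4 : (0 : ℝ) < (k : ℝ) + 1 := by positivity
      rw [one_div, inv_mul_eq_div, lt_div_iff₀ h4] at h1
      linarith
    have h4 : (k + 1) * B.card < W.card := by exact_mod_cast h3
    calc k * A.card ≤ (k + 1) * B.card := Nat.mul_le_mul (Nat.le_succ k) h2
      _ < W.card := h4
  refine ⟨W.image φ, hne, ?_, hind, not_colorable hne hind⟩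
  intro a ha
  obtain ⟨w, hw, rfl⟩ := Finset.mem_image.1 ha
  have h1 : (0 : ℚ) < (φ w : ℚ) := by
    rw [hφ w hw]
    exact mul_pos hq0 (hWpos w hw)
  exact_mod_cast h1

end Pool.Agent.Results.MP_d91fe8_nt.SquareShift
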